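import Mathlib

/-!
# RT-R: the gain from first and second neighbours

`V` a finite set of reals in `[0,S]`, `f` even, `c(u,v) = clip (f (u - v))` for first and second neighbours. If
`η(f u) + η(f v) + η(f (u+v)) ≥ d` for `0 ≤ u, v ≤ R` then `∑ (2 f c - c²) ≥ d (|V| - 2 - 2 S / R)`.
-/

set_option autoImplicit false

open Finset

namespace Pool.Agent.Helper6.RT

/-- the cut at `±1/4` -/
noncomputable def clip (g : ℝ) : ℝ := max (-(1 / 4)) (min (1 / 4) g)

/-- the gain of one entry -/
noncomputable def eta (g : ℝ) : ℝ := 2 * g * clip g - clip g ^ 2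

lemma clip_abs (g : ℝ) : |clip g| ≤ 1 / 4 := by
  unfold clip
  rw [abs_le]
  constructor
  · exact le_max_left _ _
  · exact max_le (by norm_num) (min_le_left _ _)

lemma clip_continuous : Continuous clip := by
  unfold clip
  fun_prop

lemma eta_continuous : Continuous eta := by
  unfold eta
  have := clip_continuous
  fun_prop

/-- `η(g) ≥ g²` or `≥ |g|/4` -/
lemma eta_lower (g : ℝ) : min (g ^ 2) (|g| / 4) ≤ eta g := by
  unfold eta clip
  rcases le_or_gt g (1 / 4) with h1 | h1
  · rw [min_eq_right h1]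
    rcases le_or_gt (-(1 / 4)) g with h2 | h2
    · rw [max_eq_right h2]
      refine le_trans (min_le_left _ _) (le_of_eq ?_)
      ring
    · rw [max_eq_left h2.le, abs_of_nonpos (by linarith)]
      refine le_trans (min_le_right _ _) ?_
      linarith
  · rw [min_eq_left h1.le, max_eq_right (by norm_num), abs_of_nonneg (by linarith)]
    refine le_trans (min_le_right _ _) ?_
    linarith

lemma eta_nonneg (g : ℝ) : 0 ≤ eta g := le_trans (le_min (sq_nonneg g) (by positivity)) (eta_lower g)

lemma eta_pos {g : ℝ} (h : g ≠ 0) : 0 < eta g := by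
  refine lt_of_lt_of_le (lt_min (by positivity) ?_) (eta_lower g)
  have := abs_pos.2 h
  linarith

private def adj6 (i j : ℕ) : Prop := i + 1 = j ∨ i + 2 = j ∨ j + 1 = i ∨ j + 2 = i

private lemma pair_sum6 (F : ℕ → ℕ → ℝ) (h0 : ∀ i j, 0 ≤ F i j) (hs : ∀ i j, F i j = F j i) (m : ℕ) :
    (∑ i ∈ range m, (F i (i + 1) + F (i + 1) (i + 2) + F i (i + 2))) + F m (m + 1) ≤
      ∑ i ∈ range (m + 2), ∑ j ∈ range (m + 2), F i j := by
  induction m with
  | zero =>
    rw [Finset.sum_range_zero, zero_add, zero_add]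
    rw [Finset.sum_range_succ, Finset.sum_range_succ, Finset.sum_range_zero, Finset.sum_range_succ,
      Finset.sum_range_succ, Finset.sum_range_zero, Finset.sum_range_succ, Finset.sum_range_succ, Finset.sum_range_zero]
    have := h0 0 0
    have := h0 1 0
    have := h0 1 1
    simp only [zero_add]
    linarith
  | succ m ih =>
    rw [Finset.sum_range_succ _ m]
    rw [show m + 1 + 2 = m + 3 by ring, Finset.sum_range_succ (fun i => ∑ j ∈ range (m + 3), F i j) (m + 2)]
    have e1 : ∀ i, ∑ j ∈ range (m + 3), F i j = ∑ j ∈ range (m + 2), F i j + F i (m + 2) := fun i =>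
      Finset.sum_range_succ _ _
    simp only [e1, sum_add_distrib] at ih ⊢
    have h1 : F m (m + 2) + F (m + 1) (m + 2) ≤ ∑ i ∈ range (m + 2), F i (m + 2) := by
      rw [Finset.sum_range_succ, Finset.sum_range_succ]
      have : 0 ≤ ∑ i ∈ range m, F i (m + 2) := sum_nonneg fun i _ => h0 _ _
      linarith
    have h2 : F m (m + 2) + F (m + 1) (m + 2) ≤ ∑ j ∈ range (m + 2), F (m + 2) j := by
      rw [Finset.sum_range_succ, Finset.sum_range_succ, hs (m + 2) m, hs (m + 2) (m + 1)]
      have : 0 ≤ ∑ j ∈ range m, F (m + 2) j := sum_nonneg fun i _ => h0 _ _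
      linarith
    have h3 := h0 (m + 2) (m + 2)
    have h4 := h0 m (m + 2)
    have h5 := h0 (m + 1) (m + 2)
    rw [show m + 1 + 1 = m + 2 by ring]
    linarith

/-- **the gain from first and second neighbours** -/
theorem row (V : Finset ℝ) {S R d : ℝ} (hS : 0 ≤ S) (hR : 0 < R) (hd0 : 0 ≤ d) (hV : ∀ u ∈ V, 0 ≤ u ∧ u ≤ S)
    {f : ℝ → ℝ} (hf : ∀ x, f (-x) = f x)
    (hd : ∀ u v, 0 ≤ u → u ≤ R → 0 ≤ v → v ≤ R → d ≤ eta (f u) + eta (f v) + eta (f (u + v))) :
    ∃ c : ℝ → ℝ → ℝ, (∀ u v, c u v = c v u) ∧ (∀ u, c u u = 0) ∧ (∀ u v, c u v ≠ 0 → u ∈ V ∧ v ∈ V) ∧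
      (∀ u ∈ V, ∑ v ∈ V, |c u v| ≤ 1) ∧
      d * (V.card - 2 - 2 * S / R) ≤ ∑ u ∈ V, ∑ v ∈ V, (2 * f (u - v) * c u v - c u v ^ 2) := by
  classical
  set n := V.card with hn
  set e := V.orderEmbOfFin (rfl : V.card = V.card) with he
  obtain ⟨v, hv⟩ : ∃ v : ℕ → ℝ, ∀ i : Fin n, v i = e i :=
    ⟨fun i => if h : i < n then e ⟨i, h⟩ else 0, fun i => by
      show (if h : (i : ℕ) < n then e ⟨i, h⟩ else 0) = e i
      rw [dif_pos i.2]⟩
  have hmono : ∀ i j, i < j → j < n → v i < v j := by
    intro i j hij hj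
    have h1 := hv ⟨i, hij.trans hj⟩
    have h2 := hv ⟨j, hj⟩
    simp only at h1 h2
    rw [h1, h2]
    exact e.strictMono (Fin.mk_lt_mk.2 hij)
  have hinj : Set.InjOn v (range n : Finset ℕ) := by
    intro i hi j hj hij
    rw [coe_range, Set.mem_Iio] at hi hj
    rcases lt_trichotomy i j with h | h | h
    · exact absurd hij (hmono i j h hj).ne
    · exact h
    · exact absurd hij (hmono j i h hi).ne'
  have himg : V = (range n).image v := by
    ext x
    rw [mem_image]
    constructor
    · intro hx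
      have : x ∈ Set.range e := by
        rw [he, Finset.range_orderEmbOfFin]
        exact hx
      obtain ⟨i, hi⟩ := this
      exact ⟨i, mem_range.2 i.2, (hv i).trans hi⟩
    · rintro ⟨i, hi, rfl⟩
      have h1 := hv ⟨i, mem_range.1 hi⟩
      simp only at h1
      rw [h1]
      exact Finset.orderEmbOfFin_mem _ _ _
  have hmem : ∀ i, i < n → v i ∈ V := by
    intro i hi
    rw [himg]
    exact mem_image_of_mem _ (mem_range.2 hi)
  have hsum : ∀ F : ℝ → ℝ, ∑ x ∈ V, F x = ∑ i ∈ range n, F (v i) := by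
    intro F
    conv_lhs => rw [himg]
    exact Finset.sum_image hinj
  set idx : ℝ → ℕ := Function.invFunOn v (range n : Finset ℕ) with hidx
  have hidx1 : ∀ i, i < n → idx (v i) = i := fun i hi => hinj.leftInvOn_invFunOn (by simpa using hi)
  have hsymadj : ∀ i j, adj6 i j ↔ adj6 j i := by
    intro i j
    unfold adj6
    tauto
  have hcs : ∀ u w, (u ∈ V ∧ w ∈ V ∧ adj6 (idx u) (idx w)) ↔ (w ∈ V ∧ u ∈ V ∧ adj6 (idx w) (idx u)) := by
    intro u w
    rw [hsymadj (idx w) (idx u)]
    tauto
  obtain ⟨c, hc⟩ : ∃ c : ℝ → ℝ → ℝ, ∀ u w, c u w = if u ∈ V ∧ w ∈ V ∧ adj6 (idx u) (idx w) then clip (f (u - w)) else 0 :=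
    ⟨_, fun _ _ => rfl⟩
  refine ⟨c, fun u w => ?_, fun u => ?_, fun u w h => ?_, fun u hu => ?_, ?_⟩
  · rw [hc, hc, show f (u - w) = f (w - u) by rw [← hf]; congr 1; ring]
    by_cases h : u ∈ V ∧ w ∈ V ∧ adj6 (idx u) (idx w)
    · rw [if_pos h, if_pos ((hcs u w).1 h)]
    · rw [if_neg h, if_neg (fun h' => h ((hcs u w).2 h'))]
  · rw [hc, if_neg]
    rintro ⟨-, -, h⟩
    unfold adj6 at h
    omega
  · rw [hc] at h
    by_cases h' : u ∈ V ∧ w ∈ V ∧ adj6 (idx u) (idx w)
    · exact ⟨h'.1, h'.2.1⟩
    · rw [if_neg h'] at h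
      exact absurd rfl h
  · have h1 : ∀ w ∈ V, |c u w| ≤ if adj6 (idx u) (idx w) then (1 / 4 : ℝ) else 0 := by
      intro w hw
      rw [hc]
      by_cases h : adj6 (idx u) (idx w)
      · rw [if_pos ⟨hu, hw, h⟩, if_pos h]
        exact clip_abs _
      · rw [if_neg (fun h' => h h'.2.2), if_neg h, abs_zero]
    refine le_trans (sum_le_sum h1) ?_
    rw [← Finset.sum_filter, sum_const, nsmul_eq_mul]
    have h2 : (V.filter fun w => adj6 (idx u) (idx w)).card ≤ 4 := by
      have h3 : ((V.filter fun w => adj6 (idx u) (idx w)).image idx).card ≤ 4 := by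
        refine le_trans (Finset.card_le_card (t := {idx u + 1, idx u + 2, idx u - 1, idx u - 2}) ?_) ?_
        · intro k hk
          rw [mem_image] at hk
          obtain ⟨w, hw, rfl⟩ := hk
          have h4 := (mem_filter.1 hw).2
          unfold adj6 at h4
          simp only [mem_insert, mem_singleton]
          omega
        · exact Finset.card_le_four
      rwa [Finset.card_image_of_injOn] at h3
      intro x hx y hy hxy
      have hx' := (mem_filter.1 (Finset.mem_coe.1 hx)).1
      have hy' := (mem_filter.1 (Finset.mem_coe.1 hy)).1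
      rw [himg, mem_image] at hx' hy'
      obtain ⟨i, hi, rfl⟩ := hx'
      obtain ⟨j, hj, rfl⟩ := hy'
      rw [hidx1 i (mem_range.1 hi), hidx1 j (mem_range.1 hj)] at hxy
      rw [hxy]
    have h3 : ((V.filter fun w => adj6 (idx u) (idx w)).card : ℝ) ≤ 4 := by exact_mod_cast h2
    linarith
  · obtain ⟨F, hF⟩ : ∃ F : ℕ → ℕ → ℝ, ∀ i j, F i j = if adj6 i j then eta (f (v i - v j)) else 0 := ⟨_, fun _ _ => rfl⟩
    have hF0 : ∀ i j, 0 ≤ F i j := by
      intro i j
      rw [hF]
      split_ifs
      · exact eta_nonneg _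
      · exact le_rfl
    have hFs : ∀ i j, F i j = F j i := by
      intro i j
      rw [hF, hF, show f (v i - v j) = f (v j - v i) by rw [← hf]; congr 1; ring]
      by_cases h : adj6 i j
      · rw [if_pos h, if_pos ((hsymadj i j).1 h)]
      · rw [if_neg h, if_neg (fun h' => h ((hsymadj i j).2 h'))]
    have e1 : ∑ u ∈ V, ∑ w ∈ V, (2 * f (u - w) * c u w - c u w ^ 2) = ∑ i ∈ range n, ∑ j ∈ range n, F i j := by
      rw [hsum]
      refine sum_congr rfl fun i hi => ?_
      rw [hsum]
      refine sum_congr rfl fun j hj => ?_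
      rw [mem_range] at hi hj
      rw [hc, hF, hidx1 i hi, hidx1 j hj]
      by_cases h : adj6 i j
      · rw [if_pos ⟨hmem i hi, hmem j hj, h⟩, if_pos h]
        rfl
      · rw [if_neg (fun h' => h h'.2.2), if_neg h]
        norm_num
    rw [e1]
    by_cases hn2 : n < 2
    · have h1 : (n : ℝ) ≤ 2 := by exact_mod_cast hn2.le
      have h2 : 0 ≤ 2 * S / R := by positivity
      have h3 : 0 ≤ ∑ i ∈ range n, ∑ j ∈ range n, F i j := sum_nonneg fun i _ => sum_nonneg fun j _ => hF0 i j
      have h4 : d * ((n : ℝ) - 2 - 2 * S / R) ≤ 0 := mul_nonpos_of_nonneg_of_nonpos hd0 (by linarith)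
      linarith
    · obtain ⟨m, hm⟩ : ∃ m, n = m + 2 := ⟨n - 2, by omega⟩
      have h1 := pair_sum6 F hF0 hFs m
      rw [← hm] at h1
      refine le_trans ?_ (le_trans (le_add_of_nonneg_right (hF0 m (m + 1))) h1)
      have h2 : ∀ i ∈ range m, d * (1 - (v (i + 1) - v i) / R - (v (i + 2) - v (i + 1)) / R) ≤
          F i (i + 1) + F (i + 1) (i + 2) + F i (i + 2) := by
        intro i hi
        rw [mem_range] at hi
        have g1 : v i < v (i + 1) := hmono _ _ (by omega) (by omega)
        have g2 : v (i + 1) < v (i + 2) := hmono _ _ (by omega) (by omega)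
        have q1 : 0 ≤ (v (i + 1) - v i) / R := div_nonneg (by linarith) hR.le
        have q2 : 0 ≤ (v (i + 2) - v (i + 1)) / R := div_nonneg (by linarith) hR.le
        by_cases hb : v (i + 1) - v i ≤ R ∧ v (i + 2) - v (i + 1) ≤ R
        · have h3 := hd (v (i + 1) - v i) (v (i + 2) - v (i + 1)) (by linarith) hb.1 (by linarith) hb.2
          have k1 : F i (i + 1) = eta (f (v (i + 1) - v i)) := by
            rw [hF, if_pos (show adj6 i (i + 1) from Or.inl rfl), ← hf]
            congr 2
            ring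
          have k2 : F (i + 1) (i + 2) = eta (f (v (i + 2) - v (i + 1))) := by
            rw [hF, if_pos (show adj6 (i + 1) (i + 2) from Or.inl rfl), ← hf]
            congr 2
            ring
          have k3 : F i (i + 2) = eta (f (v (i + 1) - v i + (v (i + 2) - v (i + 1)))) := by
            rw [hF, if_pos (show adj6 i (i + 2) from Or.inr (Or.inl rfl)), ← hf]
            congr 2
            ring
          rw [k1, k2, k3]
          refine le_trans ?_ h3
          have : d * (1 - (v (i + 1) - v i) / R - (v (i + 2) - v (i + 1)) / R) ≤ d * 1 :=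
            mul_le_mul_of_nonneg_left (by linarith) hd0
          linarith
        · have h3 : 1 ≤ (v (i + 1) - v i) / R + (v (i + 2) - v (i + 1)) / R := by
            by_cases hb1 : v (i + 1) - v i ≤ R
            · have hb2 : R ≤ v (i + 2) - v (i + 1) := by
                by_contra h'
                exact hb ⟨hb1, (not_le.1 h').le⟩
              have : 1 ≤ (v (i + 2) - v (i + 1)) / R := (one_le_div hR).2 hb2
              linarith
            · have : 1 ≤ (v (i + 1) - v i) / R := (one_le_div hR).2 (not_le.1 hb1).le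
              linarith
          have h4 : d * (1 - (v (i + 1) - v i) / R - (v (i + 2) - v (i + 1)) / R) ≤ 0 :=
            mul_nonpos_of_nonneg_of_nonpos hd0 (by linarith)
          have := hF0 i (i + 1)
          have := hF0 (i + 1) (i + 2)
          have := hF0 i (i + 2)
          linarith
      refine le_trans ?_ (sum_le_sum h2)
      rw [← mul_sum]
      refine mul_le_mul_of_nonneg_left ?_ hd0
      rw [sum_sub_distrib, sum_sub_distrib, ← Finset.sum_div, ← Finset.sum_div, Finset.sum_range_sub v m]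
      have t2 : ∑ i ∈ range m, (v (i + 2) - v (i + 1)) = v (m + 1) - v 1 :=
        Finset.sum_range_sub (fun i => v (i + 1)) m
      rw [t2, sum_const, card_range, nsmul_eq_mul, mul_one]
      have a1 := hV _ (hmem 0 (by omega))
      have a2 := hV _ (hmem m (by omega))
      have a3 := hV _ (hmem 1 (by omega))
      have a4 := hV _ (hmem (m + 1) (by omega))
      have b1 : (v m - v 0) / R ≤ S / R := div_le_div_of_nonneg_right (by linarith [a1.1, a2.2]) hR.le
      have b2 : (v (m + 1) - v 1) / R ≤ S / R := div_le_div_of_nonneg_right (by linarith [a3.1, a4.2]) hR.le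
      have b3 : 2 * S / R = S / R + S / R := by ring
      have b4 : (n : ℝ) = m + 2 := by rw [hm]; push_cast; ring
      rw [b3, b4]
      linarith

end Pool.Agent.Helper6.RT
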