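import Pool.Agent.Helper66.RT.Win
import Pool.Agent.Helper66.RT.Frame3
import Pool.Agent.Helper6.HM.Zeros

/-!
# RT-Z3: the main inequality for the zeros, box form

`Q`, `A` a partition of the simple zeros on the line; each `ρ` in `A` has a zero `σ` which is not simple or not on the line with
`|lev ρ - lev σ| ≤ 1/10` and `|Re σ - 1/2| log T ≤ 5`. Then the zeros in `A` count `2`.
-/

set_option autoImplicit false

open MeasureTheory Set Filter Topology Matrix
open scoped ComplexOrder ComplexConjugate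

namespace Pool.Agent.Helper6.RT

open Pool.Agent.Helper57.LH Pool.Agent.Helper57.PC Pool.Agent.Helper57.Zeta
open Pool.Agent.Helper57.FL (ff ff_nonneg ff_cont)
open Pool.Agent.Helper99.HZ (AA AA_psd sz sz_sz sg sg_re sym_Zf hh ex ex_cont ex_int)
open Pool.Agent.Helper66.RT
open Pool.Agent.Helper6.HM (lev st_mem one_le_mult Sc mem_Sc)

section

variable {p : ℝ → ℝ} {c : ℝ} {Z : Finset ℂ}

/-- the real part of an entry -/
lemma AA_re (hp : Wt p c) (L : ℝ) (ρ ρ' : Z) : (AA L Z p c ρ ρ').re =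
    ∫ x in Icc (-c) c, p x * (Real.exp (x * (L * ((ρ : ℂ).re + (ρ' : ℂ).re - 1))) *
      Real.cos (x * (L * ((ρ' : ℂ).im - (ρ : ℂ).im)))) := by
  unfold AA
  rw [of_apply]
  have hi : Integrable (fun x : ℝ => (p x : ℂ) * (conj (ex L x (ρ : ℂ)) * ex L x (ρ' : ℂ))) (volume.restrict (Icc (-c) c)) := by
    refine ex_int hp.cont c ?_
    exact (Complex.continuous_conj.comp (ex_cont L (ρ : ℂ))).mul (ex_cont L (ρ' : ℂ))
  have h1 := integral_re hi
  have h2 : (∫ x in Icc (-c) c, (p x : ℂ) * (conj (ex L x (ρ : ℂ)) * ex L x (ρ' : ℂ))).re =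
      RCLike.re (∫ x in Icc (-c) c, (p x : ℂ) * (conj (ex L x (ρ : ℂ)) * ex L x (ρ' : ℂ))) := rfl
  rw [h2, ← h1]
  refine integral_congr_ae (Eventually.of_forall fun x => ?_)
  show ((p x : ℂ) * (conj (ex L x (ρ : ℂ)) * ex L x (ρ' : ℂ))).re = _
  rw [Complex.re_ofReal_mul]
  congr 1
  unfold ex
  rw [← Complex.exp_conj, ← Complex.exp_add, Complex.exp_re]
  congr 2
  · simp
    ring
  · simp
    ring

/-- the hyperbolic cosine on `[-5/2,5/2]` -/
private lemma cosh_le6 {t : ℝ} (ht : |t| ≤ 5 / 2) : Real.cosh t ≤ 614 / 100 := by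
  rw [← Real.cosh_abs]
  have h0 : Real.cosh |t| ≤ Real.cosh (5 / 2) := by
    rw [Real.cosh_le_cosh, abs_abs, abs_of_pos (by norm_num : (0:ℝ) < 5 / 2)]
    exact ht
  refine h0.trans ?_
  rw [Real.cosh_eq]
  have h1 : Real.exp (5 / 2) ^ 2 = Real.exp 1 ^ 5 := by
    rw [← Real.exp_nat_mul, ← Real.exp_nat_mul]
    norm_num
  have h2 := Real.exp_one_lt_d9
  have h3 := Real.exp_one_gt_d9
  have hpos := Real.exp_pos (5 / 2)
  have h4 : Real.exp 1 ^ 5 ≤ (1219 / 100) ^ 2 := by
    have : Real.exp 1 ^ 5 ≤ 2.7182818286 ^ 5 := pow_le_pow_left₀ (Real.exp_pos 1).le h2.le 5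
    refine this.trans ?_
    norm_num
  have h5 : (12:ℝ) ^ 2 ≤ Real.exp 1 ^ 5 := by
    have : (2.7182818283 : ℝ) ^ 5 ≤ Real.exp 1 ^ 5 := pow_le_pow_left₀ (by norm_num) h3.le 5
    refine le_trans ?_ this
    norm_num
  have h6 : Real.exp (5 / 2) ≤ 1219 / 100 := by
    rw [← h1] at h4
    exact (sq_le_sq₀ hpos.le (by norm_num)).1 h4
  have h7 : 12 ≤ Real.exp (5 / 2) := by
    rw [← h1] at h5
    exact (sq_le_sq₀ (by norm_num) hpos.le).1 h5
  have h8 : Real.exp (-(5 / 2)) ≤ 1 / 12 := by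
    rw [Real.exp_neg, ← one_div]
    exact one_div_le_one_div_of_le (by norm_num) h7
  linarith

/-- **the Kantorovich step** -/
lemma near_bound (hp : Wt p c) {y d : ℝ} (hy : |y| ≤ 5) (hd : |d| ≤ Real.pi / 5) :
    5 / 12 * ∫ x in Icc (-c) c, p x * (4 * Real.cosh (x * y) ^ 2) ≤
      (∫ x in Icc (-c) c, p x * (2 * Real.cosh (x * y) * Real.cos (x * d))) ^ 2 ∧
    0 ≤ ∫ x in Icc (-c) c, p x * (2 * Real.cosh (x * y) * Real.cos (x * d)) := by
  have hc : ∀ {f : ℝ → ℝ}, Continuous f → Integrable (fun x => p x * f x) (volume.restrict (Icc (-c) c)) := by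
    intro f hf
    exact (hp.cont.mul hf).continuousOn.integrableOn_compact isCompact_Icc
  have hmass : ∫ x in Icc (-c) c, p x = 1 := by
    rw [setIntegral_eq_integral_of_forall_compl_eq_zero hp.out, hp.mass]
  have hx : ∀ x ∈ Icc (-c) c, |x| ≤ 1 / 2 := by
    intro x hx
    have := hp.c1
    rw [abs_le]
    constructor <;> linarith [hx.1, hx.2]
  set g : ℝ := ∫ x in Icc (-c) c, p x * Real.cosh (x * y) with hg
  have hcc : Continuous fun x : ℝ => Real.cosh (x * y) := Real.continuous_cosh.comp (by fun_prop)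
  have hcos : Continuous fun x : ℝ => Real.cos (x * d) := by fun_prop
  -- the square
  have h1 : ∫ x in Icc (-c) c, p x * (4 * Real.cosh (x * y) ^ 2) ≤ 4 * ((1 + 614 / 100) * g - 614 / 100) := by
    have h2 : 4 * ((1 + 614 / 100) * g - 614 / 100) =
        ∫ x in Icc (-c) c, p x * (4 * ((1 + 614 / 100) * Real.cosh (x * y) - 614 / 100)) := by
      have h3 : ∀ x, p x * (4 * ((1 + 614 / 100) * Real.cosh (x * y) - 614 / 100)) =
          4 * (1 + 614 / 100) * (p x * Real.cosh (x * y)) - 4 * (614 / 100) * p x := by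
        intro x
        ring
      simp_rw [h3]
      rw [integral_sub, integral_const_mul, integral_const_mul, hmass, ← hg]
      · ring
      · exact (hc hcc).const_mul _
      · exact (hp.cont.continuousOn.integrableOn_compact isCompact_Icc).const_mul _
    rw [h2]
    refine setIntegral_mono_on ?_ ?_ measurableSet_Icc fun x hxI => ?_
    · exact hc (by fun_prop)
    · exact hc (by fun_prop)
    · refine mul_le_mul_of_nonneg_left ?_ (hp.nn x)
      have h4 := Real.one_le_cosh (x * y)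
      have h5 : Real.cosh (x * y) ≤ 614 / 100 := by
        apply cosh_le6
        rw [abs_mul]
        have := hx x hxI
        have h6 := abs_nonneg y
        have h7 := abs_nonneg x
        nlinarith
      nlinarith
  -- the product
  have h2 : 2 * (19 / 20) * g ≤ ∫ x in Icc (-c) c, p x * (2 * Real.cosh (x * y) * Real.cos (x * d)) := by
    have h3 : 2 * (19 / 20) * g = ∫ x in Icc (-c) c, p x * (2 * (19 / 20) * Real.cosh (x * y)) := by
      have h3 : ∀ x, p x * (2 * (19 / 20) * Real.cosh (x * y)) = 2 * (19 / 20) * (p x * Real.cosh (x * y)) := by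
        intro x
        ring
      simp_rw [h3]
      rw [integral_const_mul]
    rw [h3]
    refine setIntegral_mono_on ?_ ?_ measurableSet_Icc fun x hxI => ?_
    · exact hc (by fun_prop)
    · exact hc (by fun_prop)
    · refine mul_le_mul_of_nonneg_left ?_ (hp.nn x)
      have h4 := Real.one_le_cosh (x * y)
      have h5 := Real.one_sub_sq_div_two_le_cos (x := x * d)
      have h6 : |x * d| ≤ Real.pi / 10 := by
        rw [abs_mul]
        have := hx x hxI
        have h7 := abs_nonneg d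
        have h8 := abs_nonneg x
        nlinarith
      have h7 : (x * d) ^ 2 ≤ 1 / 10 := by
        rw [← sq_abs]
        have h8 := Real.pi_lt_d2
        have h9 := Real.pi_pos
        have h10 := abs_nonneg (x * d)
        nlinarith
      have h8 : 19 / 20 ≤ Real.cos (x * d) := by linarith
      nlinarith
  have hg1 : 1 ≤ g := by
    rw [← hmass, hg]
    refine setIntegral_mono_on (hp.cont.continuousOn.integrableOn_compact isCompact_Icc) (hc hcc) measurableSet_Icc fun x _ => ?_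
    have := Real.one_le_cosh (x * y)
    have h3 := hp.nn x
    nlinarith
  have h3 : 0 ≤ 2 * (19 / 20) * g := by linarith
  refine ⟨?_, h3.trans h2⟩
  have h4 : (2 * (19 / 20) * g) ^ 2 ≤ (∫ x in Icc (-c) c, p x * (2 * Real.cosh (x * y) * Real.cos (x * d))) ^ 2 :=
    pow_le_pow_left₀ h3 h2 2
  refine le_trans ?_ h4
  nlinarith [sq_nonneg (g - 714 / 361)]

end

/-- the data of the zeros -/
noncomputable def Z3 (T : ℝ) {p : ℝ → ℝ} {b : ℝ} (hp : Wt p b) : Data3 {ρ : ℂ // ρ ∈ Zf T} where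
  E := AA (Real.log T) (Zf T) p b
  hE := AA_psd (Real.log T) (Zf T) b hp.cont fun x _ => hp.nn x
  st := sz (sym_Zf T)
  hst := sz_sz (sym_Zf T)
  hE1 := AA_st hp (Real.log T) (sym_Zf T)
  m i := mult (i : ℂ)
  hm i := one_le_mult i.2
  hms i := (st_mem i.2).2
  up i := 1 / 2 < (i : ℂ).re
  hup i hi := by
    have h1 : ((sz (sym_Zf T) i : {ρ : ℂ // ρ ∈ Zf T}) : ℂ).re = 1 - (i : ℂ).re := sg_re _
    have h2 : (i : ℂ).re ≠ 1 / 2 := by
      intro h
      apply hi
      apply Subtype.ext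
      show 1 - conj (i : ℂ) = (i : ℂ)
      rw [Complex.ext_iff]
      simp only [Complex.sub_re, Complex.one_re, Complex.conj_re, Complex.sub_im, Complex.one_im, Complex.conj_im]
      constructor <;> linarith
    rw [h1, not_lt]
    constructor
    · intro h; linarith
    · intro h
      rcases lt_or_gt_of_ne h2 with h3 | h3
      · linarith
      · exact h3

/-- **the main inequality for the zeros, box form** -/
theorem zeros3 {T : ℝ} (hT : 1 < T) {p : ℝ → ℝ} {b : ℝ} (hp : Wt p b) (Q A : Finset ℂ)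
    (hQ : ∀ ρ ∈ Q, ρ ∈ Sc T) (hA : ∀ ρ ∈ A, ρ ∈ Sc T ∧ ρ ∉ Q) (hQA : ∀ ρ ∈ Sc T, ρ ∈ Q ∨ ρ ∈ A)
    (hA2 : ∀ ρ ∈ A, ∃ σ ∈ Zf T, σ ∉ Sc T ∧ |lev T ρ - lev T σ| ≤ 1 / 10 ∧ |σ.re - 1 / 2| * Real.log T ≤ 5)
    {c : ℝ → ℝ → ℝ} (hc1 : ∀ u v, c u v = c v u) (hc2 : ∀ u, c u u = 0)
    (hc3 : ∀ ρ ∈ Q, ∑ σ ∈ Q, |c (lev T ρ) (lev T σ)| ≤ 1) :
    2 * NT T - (Q.card : ℝ) +
      ∑ ρ ∈ Q, ∑ σ ∈ Q, (2 * Gp p (lev T ρ - lev T σ) * c (lev T ρ) (lev T σ) - c (lev T ρ) (lev T σ) ^ 2) ≤
      SN T * ∫ u, hh p u * ff T u := by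
  classical
  have hL : 0 < Real.log T := Real.log_pos hT
  set D := Z3 T hp with hD
  have hS : ∀ i : {ρ : ℂ // ρ ∈ Zf T}, D.S i ↔ (i : ℂ) ∈ Sc T := by
    intro i
    rw [mem_Sc]
    have h1 : D.st i = i ↔ (i : ℂ).re = 1 / 2 := by
      rw [Subtype.ext_iff]
      show 1 - conj (i : ℂ) = (i : ℂ) ↔ _
      rw [Complex.ext_iff]
      simp only [Complex.sub_re, Complex.one_re, Complex.conj_re, Complex.sub_im, Complex.one_im, Complex.conj_im]
      constructor
      · rintro ⟨h, -⟩; linarith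
      · intro h; constructor <;> linarith
    unfold Data3.S
    rw [h1]
    show _ ∧ mult (i : ℂ) = 1 ↔ _
    exact ⟨fun h => ⟨i.2, h⟩, fun h => h.2⟩
  set c' : {ρ : ℂ // ρ ∈ Zf T} → {ρ : ℂ // ρ ∈ Zf T} → ℂ := fun i j =>
    if (i : ℂ) ∈ Q ∧ (j : ℂ) ∈ Q then ((c (lev T i) (lev T j) : ℝ) : ℂ) else 0 with hc'
  have hSub : Q ⊆ Zf T := fun ρ hρ => (mem_Sc.1 (hQ ρ hρ)).1
  have hsum1 : ∀ f : ℂ → ℝ, ∑ j : {ρ : ℂ // ρ ∈ Zf T}, (if (j : ℂ) ∈ Q then f (j : ℂ) else 0) = ∑ σ ∈ Q, f σ := by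
    intro f
    rw [Finset.sum_coe_sort (Zf T) (fun σ => if σ ∈ Q then f σ else 0), Finset.sum_ite_mem, Finset.inter_eq_right.2 hSub]
  have hadm : D.Adm (fun i => (i : ℂ) ∈ A) c' := by
    refine ⟨fun i j => ?_, fun i j h => ?_, fun i => ?_, fun i hi => ?_⟩
    · simp only [hc']
      by_cases h : (i : ℂ) ∈ Q ∧ (j : ℂ) ∈ Q
      · rw [if_pos h, if_pos h.symm, Complex.conj_ofReal, hc1]
      · rw [if_neg h, if_neg (fun h' => h h'.symm), map_zero]
    · simp only [hc'] at h
      by_cases h1 : (i : ℂ) ∈ Q ∧ (j : ℂ) ∈ Q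
      · rw [if_pos h1] at h
        refine ⟨fun e => ?_, (hS i).2 (hQ _ h1.1), fun h' => (hA _ h').2 h1.1⟩
        subst e
        rw [hc2] at h
        exact h (by simp)
      · rw [if_neg h1] at h
        exact absurd rfl h
    · by_cases h : (i : ℂ) ∈ Q
      · have h1 := hc3 _ h
        have h2 : ∑ j, ‖c' i j‖ = ∑ σ ∈ Q, |c (lev T i) (lev T σ)| := by
          rw [← hsum1]
          refine Finset.sum_congr rfl fun j _ => ?_
          simp only [hc']
          by_cases h3 : (j : ℂ) ∈ Q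
          · rw [if_pos ⟨h, h3⟩, if_pos h3, Complex.norm_real, Real.norm_eq_abs]
          · rw [if_neg (fun h' => h3 h'.2), if_neg h3, norm_zero]
        rw [h2]
        exact h1
      · have h2 : ∑ j, ‖c' i j‖ = 0 := by
          refine Finset.sum_eq_zero fun j _ => ?_
          simp only [hc']
          rw [if_neg (fun h' => h h'.1), norm_zero]
        rw [h2]
        norm_num
    · have hi0 := hA _ hi
      refine ⟨(hS i).2 hi0.1, ?_⟩
      obtain ⟨σ, hσ, hσS, hσ1, hσ2⟩ := hA2 _ hi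
      refine ⟨⟨σ, hσ⟩, fun h => hσS ((hS _).1 h), ?_⟩
      have hire : (i : ℂ).re = 1 / 2 := (mem_Sc.1 hi0.1).2.1
      set y : ℝ := Real.log T * (σ.re - 1 / 2) with hy
      set d : ℝ := Real.log T * ((i : ℂ).im - σ.im) with hd
      have hy5 : |y| ≤ 5 := by
        rw [hy, abs_mul, abs_of_pos hL, mul_comm]
        exact hσ2
      have hd5 : |d| ≤ Real.pi / 5 := by
        have h1 : d = 2 * Real.pi * (lev T i - lev T σ) := by
          rw [hd]
          unfold lev
          have := Real.pi_pos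
          field_simp
        rw [h1, abs_mul, abs_of_pos (by positivity)]
        have := Real.pi_pos
        nlinarith
      have hstim : ((sz (sym_Zf T) ⟨σ, hσ⟩ : {ρ : ℂ // ρ ∈ Zf T}) : ℂ).im = σ.im := by
        show (1 - conj σ).im = σ.im
        simp
      have hstre : ((sz (sym_Zf T) ⟨σ, hσ⟩ : {ρ : ℂ // ρ ∈ Zf T}) : ℂ).re = 1 - σ.re := sg_re _
      have k1 := AA_re hp (Real.log T) (⟨σ, hσ⟩ : {ρ : ℂ // ρ ∈ Zf T}) ⟨σ, hσ⟩
      have k2 := AA_re hp (Real.log T) (sz (sym_Zf T) ⟨σ, hσ⟩) (sz (sym_Zf T) ⟨σ, hσ⟩)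
      have k3 := AA_re hp (Real.log T) (⟨σ, hσ⟩ : {ρ : ℂ // ρ ∈ Zf T}) i
      have k4 := AA_re hp (Real.log T) (sz (sym_Zf T) ⟨σ, hσ⟩) i
      rw [hstre] at k2 k4
      rw [hstim] at k4
      simp only [sub_self, mul_zero, Real.cos_zero, mul_one] at k1 k2
      rw [hire] at k3 k4
      have a1 : ∀ x : ℝ, x * (Real.log T * (σ.re + σ.re - 1)) = 2 * (x * y) := by intro x; rw [hy]; ring
      have a2 : ∀ x : ℝ, x * (Real.log T * (1 - σ.re + (1 - σ.re) - 1)) = -(2 * (x * y)) := by intro x; rw [hy]; ring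
      have a3 : ∀ x : ℝ, x * (Real.log T * (σ.re + 1 / 2 - 1)) = x * y := by intro x; rw [hy]; ring
      have a4 : ∀ x : ℝ, x * (Real.log T * (1 - σ.re + 1 / 2 - 1)) = -(x * y) := by intro x; rw [hy]; ring
      have a5 : ∀ x : ℝ, x * (Real.log T * ((i : ℂ).im - σ.im)) = x * d := by intro x; rw [hd]
      simp only [a1] at k1
      simp only [a2] at k2
      simp only [a3, a5] at k3
      simp only [a4, a5] at k4
      have hcI : ∀ {f : ℝ → ℝ}, Continuous f → Integrable (fun x => p x * f x) (volume.restrict (Icc (-b) b)) := by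
        intro f hf
        exact (hp.cont.mul hf).continuousOn.integrableOn_compact isCompact_Icc
      have hmass : ∫ x in Icc (-b) b, p x = 1 := by
        rw [setIntegral_eq_integral_of_forall_compl_eq_zero hp.out, hp.mass]
      have e1 : (AA (Real.log T) (Zf T) p b ⟨σ, hσ⟩ ⟨σ, hσ⟩).re +
          (AA (Real.log T) (Zf T) p b (sz (sym_Zf T) ⟨σ, hσ⟩) (sz (sym_Zf T) ⟨σ, hσ⟩)).re + 2 =
          ∫ x in Icc (-b) b, p x * (4 * Real.cosh (x * y) ^ 2) := by
        have h2 : ∫ x in Icc (-b) b, 2 * p x = 2 := by rw [integral_const_mul, hmass, mul_one]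
        have i1 : Integrable (fun x => p x * Real.exp (2 * (x * y))) (volume.restrict (Icc (-b) b)) := hcI (by fun_prop)
        have i2 : Integrable (fun x => p x * Real.exp (-(2 * (x * y)))) (volume.restrict (Icc (-b) b)) := hcI (by fun_prop)
        have i3 : Integrable (fun x => 2 * p x) (volume.restrict (Icc (-b) b)) :=
          (hp.cont.continuousOn.integrableOn_compact isCompact_Icc).const_mul _
        have h7 : (∫ x in Icc (-b) b, p x * Real.exp (2 * (x * y))) + (∫ x in Icc (-b) b, p x * Real.exp (-(2 * (x * y)))) +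
            ∫ x in Icc (-b) b, 2 * p x =
            ∫ x in Icc (-b) b, (p x * Real.exp (2 * (x * y)) + p x * Real.exp (-(2 * (x * y))) + 2 * p x) := by
          rw [← integral_add i1 i2]
          exact (integral_add (i1.add i2) i3).symm
        rw [h2] at h7
        rw [k1, k2, h7]
        refine integral_congr_ae (Eventually.of_forall fun x => ?_)
        simp only
        rw [Real.cosh_eq]
        have h3 : Real.exp (2 * (x * y)) = Real.exp (x * y) ^ 2 := by
          rw [← Real.exp_nat_mul]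
          norm_num
        have h4 : Real.exp (-(2 * (x * y))) = Real.exp (-(x * y)) ^ 2 := by
          rw [← Real.exp_nat_mul]
          congr 1
          push_cast
          ring
        have h5 : Real.exp (x * y) * Real.exp (-(x * y)) = 1 := by
          rw [← Real.exp_add]
          simp
        rw [h3, h4]
        linear_combination (-2 * p x) * h5
      have e2 : (AA (Real.log T) (Zf T) p b ⟨σ, hσ⟩ i).re + (AA (Real.log T) (Zf T) p b (sz (sym_Zf T) ⟨σ, hσ⟩) i).re =
          ∫ x in Icc (-b) b, p x * (2 * Real.cosh (x * y) * Real.cos (x * d)) := by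
        rw [k3, k4, ← integral_add (hcI (by fun_prop)) (hcI (by fun_prop))]
        refine integral_congr_ae (Eventually.of_forall fun x => ?_)
        simp only
        rw [Real.cosh_eq]
        ring
      have h6 := near_bound hp hy5 hd5
      show 5 / 12 * ((AA (Real.log T) (Zf T) p b ⟨σ, hσ⟩ ⟨σ, hσ⟩).re +
        (AA (Real.log T) (Zf T) p b (sz (sym_Zf T) ⟨σ, hσ⟩) (sz (sym_Zf T) ⟨σ, hσ⟩)).re + 2) ≤
        ‖AA (Real.log T) (Zf T) p b ⟨σ, hσ⟩ i + AA (Real.log T) (Zf T) p b (sz (sym_Zf T) ⟨σ, hσ⟩) i‖ ^ 2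
      rw [e1]
      refine h6.1.trans ?_
      refine pow_le_pow_left₀ h6.2 ?_ 2
      rw [← e2, ← Complex.add_re]
      exact Complex.re_le_norm _
  have hmain := Data3.main hadm
  have e1 : ∑ i, (if D.S i then (if (i : ℂ) ∈ A then (2:ℝ) else 1) else 2 * D.m i) = 2 * NT T - (Q.card : ℝ) := by
    have h1 : ∀ i : {ρ : ℂ // ρ ∈ Zf T}, (if D.S i then (if (i : ℂ) ∈ A then (2:ℝ) else 1) else 2 * D.m i) =
        2 * (mult (i : ℂ) : ℝ) - (if (i : ℂ) ∈ Q then (fun _ : ℂ => (1:ℝ)) (i : ℂ) else 0) := by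
      intro i
      have h2 := hS i
      by_cases h3 : (i : ℂ) ∈ Sc T
      · rw [if_pos (h2.2 h3), (mem_Sc.1 h3).2.2]
        by_cases h4 : (i : ℂ) ∈ A
        · rw [if_pos h4, if_neg (hA _ h4).2]
          norm_num
        · rw [if_neg h4, if_pos ((hQA _ h3).resolve_right h4)]
          norm_num
      · rw [if_neg (fun h => h3 (h2.1 h)), if_neg (fun h => h3 (hQ _ h)), sub_zero]
        rfl
    rw [Finset.sum_congr rfl fun i _ => h1 i, Finset.sum_sub_distrib, hsum1 (fun _ => 1), ← Finset.mul_sum,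
      Finset.sum_coe_sort (Zf T) (fun ρ => (mult ρ : ℝ))]
    simp [NT]
  have e2 : ∑ i, ∑ j, (2 * (D.E j i * c' i j).re - ‖c' i j‖ ^ 2) =
      ∑ ρ ∈ Q, ∑ σ ∈ Q, (2 * Gp p (lev T ρ - lev T σ) * c (lev T ρ) (lev T σ) - c (lev T ρ) (lev T σ) ^ 2) := by
    rw [← hsum1]
    refine Finset.sum_congr rfl fun i _ => ?_
    by_cases h : (i : ℂ) ∈ Q
    · rw [if_pos h, ← hsum1]
      refine Finset.sum_congr rfl fun j _ => ?_
      simp only [hc']
      by_cases h3 : (j : ℂ) ∈ Q
      · rw [if_pos ⟨h, h3⟩, if_pos h3]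
        have h4 : D.E j i = ((Gp p (lev T i - lev T j) : ℝ) : ℂ) := by
          show AA (Real.log T) (Zf T) p b j i = _
          rw [AA_crit hp (Real.log T) (mem_Sc.1 (hQ _ h3)).2.1 (mem_Sc.1 (hQ _ h)).2.1]
          congr 2
          unfold lev
          ring
        rw [h4, ← Complex.ofReal_mul, Complex.ofReal_re, Complex.norm_real, Real.norm_eq_abs, sq_abs]
        ring
      · rw [if_neg (fun h' => h3 h'.2), if_neg h3]
        simp
    · rw [if_neg h]
      refine Finset.sum_eq_zero fun j _ => ?_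
      simp only [hc']
      rw [if_neg (fun h' => h h'.1)]
      simp
  have e3 : (∑ i, ∑ j, (D.m i : ℂ) * D.m j * (D.E (D.st i) j * D.E (D.st j) i)).re =
      SN T * ∫ u, hh p u * ff T u := by
    rw [← trace_id hT hp]
    congr 1
    refine Finset.sum_congr rfl fun i _ => ?_
    refine Finset.sum_congr rfl fun j _ => ?_
    have h3 : ∀ k : {ρ : ℂ // ρ ∈ Zf T}, (D.m k : ℂ) = (mx (k : ℂ) : ℂ) := by
      intro k
      show ((mult (k : ℂ) : ℕ) : ℂ) = _
      rw [mult_eq (mem_Zf.1 k.2).1]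
      unfold mx
      simp
    rw [h3, h3]
    rfl
  rw [e2, e3] at hmain
  refine le_trans (le_of_eq ?_) hmain
  rw [← e1]
  congr 1
  refine Finset.sum_congr rfl fun i _ => ?_
  split_ifs <;> rfl

end Pool.Agent.Helper6.RT
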