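import Mathlib

/-!
# RT-N: matching of near points

`W` a finite set of reals in which every point has another point at distance `≤ b`. Then `W` is cut into pairs and triples of
consecutive points of diameter `≤ 2 b`; `c = 1` on the pairs and `c = 1/2` on the triples.
-/

set_option autoImplicit false

open Finset

namespace Pool.Agent.Helper6.RT

/-- one step: `W = A ∪ W'` with `A` matched by `c₀` and `W'` by `c₁` -/
private lemma glue6 {A W' : Finset ℝ} (hd : Disjoint A W') {b : ℝ} {c₀ c₁ : ℝ → ℝ → ℝ}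
    (s0 : ∀ u v, c₀ u v = c₀ v u) (z0 : ∀ u, c₀ u u = 0) (p0 : ∀ u v, 0 ≤ c₀ u v)
    (n0 : ∀ u v, c₀ u v ≠ 0 → u ∈ A ∧ v ∈ A ∧ |u - v| ≤ 2 * b)
    (r0 : ∀ u ∈ A, ∑ v ∈ A, c₀ u v ≤ 1) (t0 : (A.card : ℝ) ≤ ∑ u ∈ A, ∑ v ∈ A, (2 * c₀ u v - c₀ u v ^ 2))
    (s1 : ∀ u v, c₁ u v = c₁ v u) (z1 : ∀ u, c₁ u u = 0) (p1 : ∀ u v, 0 ≤ c₁ u v)
    (n1 : ∀ u v, c₁ u v ≠ 0 → u ∈ W' ∧ v ∈ W' ∧ |u - v| ≤ 2 * b)
    (r1 : ∀ u ∈ W', ∑ v ∈ W', c₁ u v ≤ 1) (t1 : (W'.card : ℝ) ≤ ∑ u ∈ W', ∑ v ∈ W', (2 * c₁ u v - c₁ u v ^ 2)) :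
    ∃ c : ℝ → ℝ → ℝ, (∀ u v, c u v = c v u) ∧ (∀ u, c u u = 0) ∧ (∀ u v, 0 ≤ c u v) ∧
      (∀ u v, c u v ≠ 0 → u ∈ A ∪ W' ∧ v ∈ A ∪ W' ∧ |u - v| ≤ 2 * b) ∧
      (∀ u ∈ A ∪ W', ∑ v ∈ A ∪ W', c u v ≤ 1) ∧
      ((A ∪ W').card : ℝ) ≤ ∑ u ∈ A ∪ W', ∑ v ∈ A ∪ W', (2 * c u v - c u v ^ 2) := by
  have hA0 : ∀ u v, (u ∉ A ∨ v ∉ A) → c₀ u v = 0 := by
    intro u v h
    by_contra h'
    have := n0 u v h'
    tauto
  have hW0 : ∀ u v, (u ∉ W' ∨ v ∉ W') → c₁ u v = 0 := by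
    intro u v h
    by_contra h'
    have := n1 u v h'
    tauto
  have hAW : ∀ u ∈ A, u ∉ W' := fun u hu hu' => Finset.disjoint_left.1 hd hu hu'
  have hWA : ∀ u ∈ W', u ∉ A := fun u hu hu' => Finset.disjoint_left.1 hd hu' hu
  refine ⟨fun u v => c₀ u v + c₁ u v, fun u v => ?_, fun u => ?_, fun u v => ?_, fun u v h => ?_, fun u hu => ?_, ?_⟩
  · show c₀ u v + c₁ u v = c₀ v u + c₁ v u
    rw [s0, s1]
  · show c₀ u u + c₁ u u = 0
    rw [z0, z1, add_zero]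
  · show 0 ≤ c₀ u v + c₁ u v
    have := p0 u v
    have := p1 u v
    linarith
  · have h' : c₀ u v + c₁ u v ≠ 0 := h
    by_cases h0 : c₀ u v = 0
    · have h1 : c₁ u v ≠ 0 := fun e => h' (by rw [h0, e, add_zero])
      have h2 := n1 u v h1
      exact ⟨mem_union_right _ h2.1, mem_union_right _ h2.2.1, h2.2.2⟩
    · have h2 := n0 u v h0
      exact ⟨mem_union_left _ h2.1, mem_union_left _ h2.2.1, h2.2.2⟩
  · show ∑ v ∈ A ∪ W', (c₀ u v + c₁ u v) ≤ 1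
    rw [sum_union hd, sum_add_distrib, sum_add_distrib]
    rcases mem_union.1 hu with h | h
    · have e1 : ∑ v ∈ A, c₁ u v = 0 := sum_eq_zero fun v _ => hW0 u v (Or.inl (hAW u h))
      have e2 : ∑ v ∈ W', c₀ u v = 0 := sum_eq_zero fun v hv => hA0 u v (Or.inr (hWA v hv))
      have e3 : ∑ v ∈ W', c₁ u v = 0 := sum_eq_zero fun v _ => hW0 u v (Or.inl (hAW u h))
      have := r0 u h
      linarith
    · have e1 : ∑ v ∈ A, c₁ u v = 0 := sum_eq_zero fun v hv => hW0 u v (Or.inr (hAW v hv))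
      have e2 : ∑ v ∈ W', c₀ u v = 0 := sum_eq_zero fun v _ => hA0 u v (Or.inl (hWA u h))
      have e3 : ∑ v ∈ A, c₀ u v = 0 := sum_eq_zero fun v _ => hA0 u v (Or.inl (hWA u h))
      have := r1 u h
      linarith
  · show ((A ∪ W').card : ℝ) ≤ ∑ u ∈ A ∪ W', ∑ v ∈ A ∪ W', (2 * (c₀ u v + c₁ u v) - (c₀ u v + c₁ u v) ^ 2)
    rw [card_union_of_disjoint hd, sum_union hd]
    have e1 : ∀ u ∈ A, ∑ v ∈ A ∪ W', (2 * (c₀ u v + c₁ u v) - (c₀ u v + c₁ u v) ^ 2) =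
        ∑ v ∈ A, (2 * c₀ u v - c₀ u v ^ 2) := by
      intro u hu
      rw [sum_union hd]
      have e2 : ∑ v ∈ W', (2 * (c₀ u v + c₁ u v) - (c₀ u v + c₁ u v) ^ 2) = 0 := by
        refine sum_eq_zero fun v hv => ?_
        rw [hA0 u v (Or.inr (hWA v hv)), hW0 u v (Or.inl (hAW u hu))]
        norm_num
      rw [e2, add_zero]
      refine sum_congr rfl fun v _ => ?_
      rw [hW0 u v (Or.inl (hAW u hu)), add_zero]
    have e3 : ∀ u ∈ W', ∑ v ∈ A ∪ W', (2 * (c₀ u v + c₁ u v) - (c₀ u v + c₁ u v) ^ 2) =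
        ∑ v ∈ W', (2 * c₁ u v - c₁ u v ^ 2) := by
      intro u hu
      rw [sum_union hd]
      have e2 : ∑ v ∈ A, (2 * (c₀ u v + c₁ u v) - (c₀ u v + c₁ u v) ^ 2) = 0 := by
        refine sum_eq_zero fun v hv => ?_
        rw [hA0 u v (Or.inl (hWA u hu)), hW0 u v (Or.inr (hAW v hv))]
        norm_num
      rw [e2, zero_add]
      refine sum_congr rfl fun v _ => ?_
      rw [hA0 u v (Or.inl (hWA u hu)), zero_add]
    rw [sum_congr rfl e1, sum_congr rfl e3]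
    push_cast
    linarith

/-- the constant matching of a small set -/
private lemma const6 {A : Finset ℝ} {b t : ℝ} (ht : 0 ≤ t) (hA : ∀ u ∈ A, ∀ v ∈ A, |u - v| ≤ 2 * b)
    (h1 : ((A.card : ℝ) - 1) * t ≤ 1) (h2 : (A.card : ℝ) ≤ A.card * ((A.card - 1) * (2 * t - t ^ 2))) :
    ∃ c : ℝ → ℝ → ℝ, (∀ u v, c u v = c v u) ∧ (∀ u, c u u = 0) ∧ (∀ u v, 0 ≤ c u v) ∧
      (∀ u v, c u v ≠ 0 → u ∈ A ∧ v ∈ A ∧ |u - v| ≤ 2 * b) ∧ (∀ u ∈ A, ∑ v ∈ A, c u v ≤ 1) ∧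
      (A.card : ℝ) ≤ ∑ u ∈ A, ∑ v ∈ A, (2 * c u v - c u v ^ 2) := by
  classical
  have key : ∀ u ∈ A, ∀ s : ℝ, ∑ v ∈ A, (if u ∈ A ∧ v ∈ A ∧ u ≠ v then s else 0) = ((A.card : ℝ) - 1) * s := by
    intro u hu s
    have e1 : ∀ v ∈ A, (if u ∈ A ∧ v ∈ A ∧ u ≠ v then s else 0) = s - (if v = u then s else 0) := by
      intro v hv
      by_cases h : v = u
      · rw [if_neg (fun h' => h'.2.2 h.symm), if_pos h, sub_self]
      · rw [if_pos ⟨hu, hv, fun e => h e.symm⟩, if_neg h, sub_zero]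
    rw [sum_congr rfl e1, sum_sub_distrib, sum_const, Finset.sum_ite_eq' A u, if_pos hu, nsmul_eq_mul]
    ring
  refine ⟨fun u v => if u ∈ A ∧ v ∈ A ∧ u ≠ v then t else 0, fun u v => ?_, fun u => ?_, fun u v => ?_,
    fun u v h => ?_, fun u hu => ?_, ?_⟩
  · show (if u ∈ A ∧ v ∈ A ∧ u ≠ v then t else 0) = (if v ∈ A ∧ u ∈ A ∧ v ≠ u then t else 0)
    by_cases h : u ∈ A ∧ v ∈ A ∧ u ≠ v
    · rw [if_pos h, if_pos ⟨h.2.1, h.1, h.2.2.symm⟩]
    · rw [if_neg h, if_neg (fun h' => h ⟨h'.2.1, h'.1, h'.2.2.symm⟩)]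
  · show (if u ∈ A ∧ u ∈ A ∧ u ≠ u then t else 0) = 0
    rw [if_neg (fun h => h.2.2 rfl)]
  · show 0 ≤ (if u ∈ A ∧ v ∈ A ∧ u ≠ v then t else 0)
    split_ifs
    · exact ht
    · exact le_rfl
  · have h' : (if u ∈ A ∧ v ∈ A ∧ u ≠ v then t else 0) ≠ 0 := h
    by_cases h0 : u ∈ A ∧ v ∈ A ∧ u ≠ v
    · exact ⟨h0.1, h0.2.1, hA u h0.1 v h0.2.1⟩
    · rw [if_neg h0] at h'
      exact absurd rfl h'
  · show ∑ v ∈ A, (if u ∈ A ∧ v ∈ A ∧ u ≠ v then t else 0) ≤ 1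
    rw [key u hu]
    exact h1
  · show (A.card : ℝ) ≤ ∑ u ∈ A, ∑ v ∈ A, (2 * (if u ∈ A ∧ v ∈ A ∧ u ≠ v then t else 0) -
      (if u ∈ A ∧ v ∈ A ∧ u ≠ v then t else 0) ^ 2)
    have e1 : ∀ u ∈ A, ∑ v ∈ A, (2 * (if u ∈ A ∧ v ∈ A ∧ u ≠ v then t else 0) -
        (if u ∈ A ∧ v ∈ A ∧ u ≠ v then t else 0) ^ 2) = ((A.card : ℝ) - 1) * (2 * t - t ^ 2) := by
      intro u hu
      rw [← key u hu]
      refine sum_congr rfl fun v _ => ?_
      split_ifs <;> ring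
    rw [sum_congr rfl e1, sum_const, nsmul_eq_mul]
    exact h2

/-- **near points are matched** -/
theorem near {b : ℝ} (W : Finset ℝ) (hW : ∀ u ∈ W, ∃ v ∈ W, v ≠ u ∧ |u - v| ≤ b) :
    ∃ c : ℝ → ℝ → ℝ, (∀ u v, c u v = c v u) ∧ (∀ u, c u u = 0) ∧ (∀ u v, 0 ≤ c u v) ∧
      (∀ u v, c u v ≠ 0 → u ∈ W ∧ v ∈ W ∧ |u - v| ≤ 2 * b) ∧ (∀ u ∈ W, ∑ v ∈ W, c u v ≤ 1) ∧
      (W.card : ℝ) ≤ ∑ u ∈ W, ∑ v ∈ W, (2 * c u v - c u v ^ 2) := by
  classical
  induction W using Finset.strongInduction with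
  | H W ih =>
  by_cases hne : W = ∅
  · subst hne
    exact ⟨fun _ _ => 0, fun _ _ => rfl, fun _ => rfl, fun _ _ => le_rfl, fun _ _ h => absurd rfl h,
      fun u hu => absurd hu (by simp), by simp⟩
  have hne' : W.Nonempty := Finset.nonempty_iff_ne_empty.2 hne
  obtain ⟨u, huW, humin⟩ : ∃ u ∈ W, ∀ x ∈ W, u ≤ x := ⟨W.min' hne', W.min'_mem hne', fun x hx => W.min'_le x hx⟩
  obtain ⟨v₀, hv₀, hv₀u, hv₀b⟩ := hW u huW
  have hne1 : (W.erase u).Nonempty := ⟨v₀, mem_erase.2 ⟨hv₀u, hv₀⟩⟩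
  obtain ⟨v, hvW1, hvmin⟩ : ∃ v ∈ W.erase u, ∀ x ∈ W.erase u, v ≤ x :=
    ⟨(W.erase u).min' hne1, Finset.min'_mem _ hne1, fun x hx => Finset.min'_le _ x hx⟩
  have hvW : v ∈ W := mem_of_mem_erase hvW1
  have hvu : v ≠ u := ne_of_mem_erase hvW1
  have huv : u < v := lt_of_le_of_ne (humin v hvW) hvu.symm
  have hb0 : v ≤ v₀ := hvmin v₀ (mem_erase.2 ⟨hv₀u, hv₀⟩)
  have huvb : v - u ≤ b := by
    have := abs_le.1 hv₀b
    linarith [this.1]
  have hbpos : 0 < b := by linarith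
  set W1 := (W.erase u).erase v with hW1
  have hm1 : ∀ x, x ∈ W1 ↔ x ≠ v ∧ x ≠ u ∧ x ∈ W := by
    intro x
    rw [hW1, mem_erase, mem_erase]
  have hgt : ∀ x ∈ W1, v < x := by
    intro x hx
    rw [hm1] at hx
    exact lt_of_le_of_ne (hvmin x (mem_erase.2 ⟨hx.2.1, hx.2.2⟩)) hx.1.symm
  have hlt1 : W1 ⊂ W := by
    refine (Finset.ssubset_iff_of_subset fun x hx => ((hm1 x).1 hx).2.2).2 ⟨u, huW, fun h => ?_⟩
    exact ((hm1 u).1 h).2.1 rfl
  have hWeq : W = {u, v} ∪ W1 := by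
    ext x
    rw [mem_union, mem_insert, mem_singleton, hm1]
    constructor
    · intro hx
      by_cases h1 : x = u
      · exact Or.inl (Or.inl h1)
      · by_cases h2 : x = v
        · exact Or.inl (Or.inr h2)
        · exact Or.inr ⟨h2, h1, hx⟩
    · rintro ((h | h) | h)
      · rw [h]; exact huW
      · rw [h]; exact hvW
      · exact h.2.2
  by_cases hgood : ∀ x ∈ W1, ∃ y ∈ W1, y ≠ x ∧ |x - y| ≤ b
  · -- the pair `u, v`
    obtain ⟨c₁, s1, z1, p1, n1, r1, t1⟩ := ih W1 hlt1 hgood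
    have hcard : (({u, v} : Finset ℝ).card : ℝ) = 2 := by
      rw [Finset.card_pair hvu.symm]
      norm_num
    obtain ⟨c₀, s0, z0, p0, n0, r0, t0⟩ := const6 (A := {u, v}) (b := b) (t := 1) zero_le_one (by
      intro x hx y hy
      rw [mem_insert, mem_singleton] at hx hy
      rw [abs_le]
      rcases hx with rfl | rfl <;> rcases hy with rfl | rfl <;> constructor <;> linarith)
      (by rw [hcard]; norm_num) (by rw [hcard]; norm_num)
    have hd : Disjoint ({u, v} : Finset ℝ) W1 := by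
      rw [Finset.disjoint_left]
      intro x hx hx'
      rw [mem_insert, mem_singleton] at hx
      rw [hm1] at hx'
      rcases hx with h | h
      · exact hx'.2.1 h
      · exact hx'.1 h
    have := glue6 hd s0 z0 p0 n0 r0 t0 s1 z1 p1 n1 r1 t1
    rw [← hWeq] at this
    exact this
  · -- the triple `u, v, w`
    push Not at hgood
    obtain ⟨w, hw, hbad⟩ := hgood
    have hwv : v < w := hgt w hw
    have hwW := (hm1 w).1 hw
    have hwvb : w - v ≤ b := by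
      obtain ⟨y, hy, hyw, hyb⟩ := hW w hwW.2.2
      have hy1 : y ∉ W1 := fun h => absurd hyb (not_le.2 (hbad y h hyw))
      have hyv : y ≤ v := by
        rw [hm1] at hy1
        by_cases h1 : y = v
        · exact h1.le
        · by_cases h2 : y = u
          · rw [h2]; exact huv.le
          · exact absurd ⟨h1, h2, hy⟩ hy1
      have := abs_le.1 hyb
      linarith [this.2]
    set W2 := W1.erase w with hW2
    have hm2 : ∀ x, x ∈ W2 ↔ x ≠ w ∧ x ∈ W1 := fun x => by rw [hW2, mem_erase]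
    have hlt2 : W2 ⊂ W := lt_of_lt_of_le (Finset.erase_ssubset hw) hlt1.subset
    have hgood2 : ∀ x ∈ W2, ∃ y ∈ W2, y ≠ x ∧ |x - y| ≤ b := by
      intro x hx
      have hx2 := (hm2 x).1 hx
      have hxW := (hm1 x).1 hx2.2
      obtain ⟨y, hy, hyx, hyb⟩ := hW x hxW.2.2
      have hxw : b < |w - x| := hbad x hx2.2 hx2.1
      have hyw : y ≠ w := by
        rintro rfl
        rw [abs_sub_comm] at hyb
        exact absurd hyb (not_le.2 hxw)
      have hxgt : w < x := by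
        by_contra hle
        push Not at hle
        have h1 := hgt x hx2.2
        rw [abs_of_nonneg (by linarith)] at hxw
        linarith
      have hygt : ¬ y ≤ v := by
        intro hle
        rw [abs_le] at hyb
        rw [abs_of_nonpos (by linarith)] at hxw
        linarith [hyb.2]
      refine ⟨y, (hm2 y).2 ⟨hyw, (hm1 y).2 ⟨fun e => hygt e.le, fun e => hygt (by rw [e]; exact huv.le), hy⟩⟩, hyx, hyb⟩
    obtain ⟨c₁, s1, z1, p1, n1, r1, t1⟩ := ih W2 hlt2 hgood2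
    have hWeq2 : W = {u, v, w} ∪ W2 := by
      rw [hWeq]
      ext x
      simp only [mem_union, mem_insert, mem_singleton, hm2]
      constructor
      · rintro ((h | h) | h)
        · exact Or.inl (Or.inl h)
        · exact Or.inl (Or.inr (Or.inl h))
        · by_cases h' : x = w
          · exact Or.inl (Or.inr (Or.inr h'))
          · exact Or.inr ⟨h', h⟩
      · rintro ((h | h | h) | h)
        · exact Or.inl (Or.inl h)
        · exact Or.inl (Or.inr h)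
        · rw [h]; exact Or.inr hw
        · exact Or.inr h.2
    have hcard : (({u, v, w} : Finset ℝ).card : ℝ) = 3 := by
      rw [Finset.card_eq_three.2 ⟨u, v, w, hvu.symm, by linarith [hwv] |> fun (h : u < w) => h.ne, hwv.ne, rfl⟩]
      norm_num
    obtain ⟨c₀, s0, z0, p0, n0, r0, t0⟩ := const6 (A := {u, v, w}) (b := b) (t := 1 / 2) (by norm_num) (by
      intro x hx y hy
      rw [mem_insert, mem_insert, mem_singleton] at hx hy
      rw [abs_le]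
      rcases hx with rfl | rfl | rfl <;> rcases hy with rfl | rfl | rfl <;> constructor <;> linarith)
      (by rw [hcard]; norm_num) (by rw [hcard]; norm_num)
    have hd : Disjoint ({u, v, w} : Finset ℝ) W2 := by
      rw [Finset.disjoint_left]
      intro x hx hx'
      rw [mem_insert, mem_insert, mem_singleton] at hx
      rw [hm2, hm1] at hx'
      rcases hx with h | h | h
      · exact hx'.2.2.1 h
      · exact hx'.2.1 h
      · exact hx'.1 h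
    have := glue6 hd s0 z0 p0 n0 r0 t0 s1 z1 p1 n1 r1 t1
    rw [← hWeq2] at this
    exact this

end Pool.Agent.Helper6.RT
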