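import Pool.Agent.Helper66.RT.Win
import Pool.Agent.Helper65.RT.Frame
import Pool.Agent.Helper6.HM.Zeros

/-!
# RT-Z: the main inequality for the zeros, with a set `Q` of coupled zeros on the line

`Q` may contain multiple zeros; the weight `p` is arbitrary.
-/

set_option autoImplicit false

open Matrix Finset
open scoped ComplexOrder ComplexConjugate

namespace Pool.Agent.Helper6.RT

open Pool.Agent.Helper57.LH Pool.Agent.Helper57.PC Pool.Agent.Helper57.Zeta Pool.Agent.Helper57.FL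
open Pool.Agent.Helper99.HZ (AA AA_psd sz sz_sz sg sym_Zf hh)
open Pool.Agent.Helper66.RT (Wt Gp AA_st AA_crit trace_id)
open Pool.Agent.Helper6.HM (lev st_mem one_le_mult)
open Pool.Agent.Helper65.RT

/-- the data of the zeros -/
noncomputable def ZQ (T : ℝ) {p : ℝ → ℝ} {b : ℝ} (hp : Wt p b) (Q : Finset ℂ) (hQ : ∀ ρ ∈ Q, ρ ∈ Zf T ∧ ρ.re = 1 / 2) :
    Data {ρ : ℂ // ρ ∈ Zf T} where
  E := AA (Real.log T) (Zf T) p b
  hE := AA_psd (Real.log T) (Zf T) b hp.cont fun x _ => hp.nn x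
  st := sz (sym_Zf T)
  hst := sz_sz (sym_Zf T)
  hE1 := AA_st hp (Real.log T) (sym_Zf T)
  m i := mult (i : ℂ)
  hm i := one_le_mult i.2
  hms i := (st_mem i.2).2
  Cp i := (i : ℂ) ∈ Q
  hCp i hi := by
    apply Subtype.ext
    show 1 - conj (i : ℂ) = (i : ℂ)
    have h := (hQ _ hi).2
    rw [Complex.ext_iff]
    simp only [Complex.sub_re, Complex.one_re, Complex.conj_re, Complex.sub_im, Complex.one_im, Complex.conj_im]
    constructor <;> linarith

/-- **the main inequality for the zeros** -/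
theorem zeros_ineq {T : ℝ} (hT : 1 < T) {p : ℝ → ℝ} {b : ℝ} (hp : Wt p b) (Q : Finset ℂ)
    (hQ : ∀ ρ ∈ Q, ρ ∈ Zf T ∧ ρ.re = 1 / 2) {c : ℝ → ℝ → ℝ} (hc1 : ∀ u v, c u v = c v u) (hc2 : ∀ u, c u u = 0)
    (hc3 : ∀ ρ ∈ Q, ∑ σ ∈ Q, |c (lev T ρ) (lev T σ)| ≤ 1) :
    (∑ ρ ∈ Zf T, (if ρ.re = 1 / 2 then (if ρ ∈ Q then 2 * (mult ρ : ℝ) - 1 else 4 * (mult ρ : ℝ) - 4) else 2 * (mult ρ : ℝ))) +
      ∑ ρ ∈ Q, ∑ σ ∈ Q, (2 * (Real.sqrt (mult ρ) * Real.sqrt (mult σ)) * Gp p (lev T ρ - lev T σ) * c (lev T ρ) (lev T σ) -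
        c (lev T ρ) (lev T σ) ^ 2) ≤ SN T * ∫ u, hh p u * ff T u := by
  classical
  set D := ZQ T hp Q hQ with hD
  have hst : ∀ i : {ρ : ℂ // ρ ∈ Zf T}, D.st i = i ↔ (i : ℂ).re = 1 / 2 := by
    intro i
    rw [Subtype.ext_iff]
    show 1 - conj (i : ℂ) = (i : ℂ) ↔ _
    rw [Complex.ext_iff]
    simp only [Complex.sub_re, Complex.one_re, Complex.conj_re, Complex.sub_im, Complex.one_im, Complex.conj_im]
    constructor
    · rintro ⟨h, -⟩; linarith
    · intro h; constructor <;> linarith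
  set c' : {ρ : ℂ // ρ ∈ Zf T} → {ρ : ℂ // ρ ∈ Zf T} → ℂ := fun i j =>
    if (i : ℂ) ∈ Q ∧ (j : ℂ) ∈ Q then ((c (lev T i) (lev T j) : ℝ) : ℂ) else 0 with hc'
  have hSub : Q ⊆ Zf T := fun ρ hρ => (hQ ρ hρ).1
  have hsum1 : ∀ f : ℂ → ℝ, ∑ j : {ρ : ℂ // ρ ∈ Zf T}, (if (j : ℂ) ∈ Q then f (j : ℂ) else 0) = ∑ σ ∈ Q, f σ := by
    intro f
    rw [Finset.sum_coe_sort (Zf T) (fun σ => if σ ∈ Q then f σ else 0), Finset.sum_ite_mem, Finset.inter_eq_right.2 hSub]
  have hadm : D.Adm c' := by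
    refine ⟨fun i j => ?_, fun i j h => ?_, fun i => ?_⟩
    · simp only [hc']
      by_cases h : (i : ℂ) ∈ Q ∧ (j : ℂ) ∈ Q
      · rw [if_pos h, if_pos h.symm, Complex.conj_ofReal, hc1]
      · rw [if_neg h, if_neg (fun h' => h h'.symm), map_zero]
    · simp only [hc'] at h
      by_cases h1 : (i : ℂ) ∈ Q ∧ (j : ℂ) ∈ Q
      · rw [if_pos h1] at h
        refine ⟨fun e => ?_, h1.1⟩
        subst e
        rw [hc2] at h
        exact h (by simp)
      · rw [if_neg h1] at h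
        exact absurd rfl h
    · by_cases h : (i : ℂ) ∈ Q
      · have h1 := hc3 _ h
        have h2 : ∑ j, ‖c' i j‖ = ∑ σ ∈ Q, |c (lev T i) (lev T σ)| := by
          rw [← hsum1]
          refine sum_congr rfl fun j _ => ?_
          simp only [hc']
          by_cases h3 : (j : ℂ) ∈ Q
          · rw [if_pos ⟨h, h3⟩, if_pos h3, Complex.norm_real, Real.norm_eq_abs]
          · rw [if_neg (fun h' => h3 h'.2), if_neg h3, norm_zero]
        rw [h2]
        exact h1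
      · have h2 : ∑ j, ‖c' i j‖ = 0 := by
          refine sum_eq_zero fun j _ => ?_
          simp only [hc']
          rw [if_neg (fun h' => h h'.1), norm_zero]
        rw [h2]
        norm_num
  have hmain := Data.main D hadm
  have e1 : ∑ i, (if D.st i = i then (if D.Cp i then 2 * (D.m i : ℝ) - 1 else 4 * (D.m i : ℝ) - 4) else 2 * D.m i) =
      ∑ ρ ∈ Zf T, (if ρ.re = 1 / 2 then (if ρ ∈ Q then 2 * (mult ρ : ℝ) - 1 else 4 * (mult ρ : ℝ) - 4) else 2 * (mult ρ : ℝ)) := by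
    rw [← Finset.sum_coe_sort (Zf T) (fun ρ => if ρ.re = 1 / 2 then (if ρ ∈ Q then 2 * (mult ρ : ℝ) - 1 else
      4 * (mult ρ : ℝ) - 4) else 2 * (mult ρ : ℝ))]
    refine sum_congr rfl fun i _ => ?_
    have h1 := hst i
    have h2 : D.Cp i ↔ (i : ℂ) ∈ Q := Iff.rfl
    have h3 : D.m i = mult (i : ℂ) := rfl
    by_cases h4 : (i : ℂ).re = 1 / 2
    · rw [if_pos (h1.2 h4), if_pos h4, h3]
      by_cases h5 : (i : ℂ) ∈ Q
      · rw [if_pos (h2.2 h5), if_pos h5]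
      · rw [if_neg (fun h => h5 (h2.1 h)), if_neg h5]
    · rw [if_neg (fun h => h4 (h1.1 h)), if_neg h4, h3]
  have e2 : ∑ i, ∑ j, (2 * (Real.sqrt (D.m i) * Real.sqrt (D.m j)) * (D.E j i * c' i j).re - ‖c' i j‖ ^ 2) =
      ∑ ρ ∈ Q, ∑ σ ∈ Q, (2 * (Real.sqrt (mult ρ) * Real.sqrt (mult σ)) * Gp p (lev T ρ - lev T σ) * c (lev T ρ) (lev T σ) -
        c (lev T ρ) (lev T σ) ^ 2) := by
    rw [← hsum1]
    refine sum_congr rfl fun i _ => ?_
    by_cases h : (i : ℂ) ∈ Q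
    · rw [if_pos h, ← hsum1]
      refine sum_congr rfl fun j _ => ?_
      simp only [hc']
      by_cases h3 : (j : ℂ) ∈ Q
      · rw [if_pos ⟨h, h3⟩, if_pos h3]
        have h4 : D.E j i = ((Gp p (lev T i - lev T j) : ℝ) : ℂ) := by
          show AA (Real.log T) (Zf T) p b j i = _
          rw [AA_crit hp (Real.log T) (hQ _ h3).2 (hQ _ h).2]
          congr 2
          unfold lev
          ring
        have h5 : D.m i = mult (i : ℂ) := rfl
        have h6 : D.m j = mult (j : ℂ) := rfl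
        rw [h4, h5, h6, ← Complex.ofReal_mul, Complex.ofReal_re, Complex.norm_real, Real.norm_eq_abs, sq_abs]
        ring
      · rw [if_neg (fun h' => h3 h'.2), if_neg h3]
        simp
    · rw [if_neg h]
      refine sum_eq_zero fun j _ => ?_
      simp only [hc']
      rw [if_neg (fun h' => h h'.1)]
      simp
  have e3 : (∑ i, ∑ j, (D.m i : ℂ) * D.m j * (D.E (D.st i) j * D.E (D.st j) i)).re =
      SN T * ∫ u, hh p u * ff T u := by
    rw [← trace_id hT hp]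
    congr 1
    refine sum_congr rfl fun i _ => ?_
    refine sum_congr rfl fun j _ => ?_
    have h3 : ∀ k : {ρ : ℂ // ρ ∈ Zf T}, (D.m k : ℂ) = (mx (k : ℂ) : ℂ) := by
      intro k
      show ((mult (k : ℂ) : ℕ) : ℂ) = _
      rw [mult_eq (mem_Zf.1 k.2).1]
      unfold mx
      simp
    rw [h3, h3]
    rfl
  rw [e1, e2, e3] at hmain
  exact hmain

end Pool.Agent.Helper6.RT
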